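import Pool.Agent.LAT.StmtsM

/-!
# Squad LAT, row GGP: the leading minors of `GG B` are positive

`LB (GG B) c = C Cᵀ + D Dᵀ` with `C` the first `c` rows of `B` (completed by zeros) and `D` a
diagonal matrix of zeros and ones.  Over the reals `(C | D)` has independent rows.
-/

set_option autoImplicit false

namespace Pool.Agent.LAT.H55

open Matrix

/-- the first `c` rows, over the reals -/
noncomputable def ggC {m : ℕ} (B : Matrix (Fin m) (Fin m) ℤ) (c : ℕ) : Matrix (Fin m) (Fin m) ℝ :=
  Matrix.of fun i j => if (i : ℕ) < c then (B i j : ℝ) else 0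

/-- the diagonal part, over the reals -/
noncomputable def ggD {m : ℕ} (B : Matrix (Fin m) (Fin m) ℤ) (c : ℕ) : Matrix (Fin m) (Fin m) ℝ :=
  Matrix.diagonal fun i => if (i : ℕ) < c ∧ B i i ≠ 0 then 0 else 1

theorem gg_entry {m : ℕ} (B : Matrix (Fin m) (Fin m) ℤ) (c : ℕ) :
    (LB (GG B) c).map (Int.cast : ℤ → ℝ) = ggC B c * (ggC B c)ᴴ + ggD B c * (ggD B c)ᴴ := by
  have hD : ggD B c * (ggD B c)ᴴ = ggD B c := by
    unfold ggD
    rw [Matrix.diagonal_conjTranspose, Matrix.diagonal_mul_diagonal]
    congr 1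
    funext i
    by_cases h : (i : ℕ) < c ∧ B i i ≠ 0 <;> simp [h]
  rw [hD]
  ext i j
  rw [Matrix.map_apply, Matrix.add_apply, Matrix.mul_apply]
  simp only [Matrix.conjTranspose_apply, ggC, ggD, Matrix.of_apply, LB, GG, EE, star_trivial,
    Matrix.add_apply, Matrix.mul_apply, Matrix.transpose_apply]
  by_cases hi : (i : ℕ) < c
  · by_cases hj : (j : ℕ) < c
    · simp only [hi, hj, and_self, if_true, true_and]
      push_cast
      congr 1
      rw [Matrix.diagonal_apply, Matrix.diagonal_apply]
      by_cases hij : i = j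
      · subst hij
        by_cases h0 : B i i = 0 <;> simp [h0, hi]
      · simp [hij]
    · have hij : i ≠ j := fun h => hj (h ▸ hi)
      simp [hi, hj, hij, Matrix.diagonal_apply]
  · by_cases hij : i = j
    · subst hij
      simp [hi]
    · simp [hi, hij, Matrix.diagonal_apply]

theorem gg_inj {m : ℕ} {B : Matrix (Fin m) (Fin m) ℤ} (hB : IsHNF B) (c : ℕ) :
    Function.Injective (Matrix.fromCols (ggC B c) (ggD B c)).vecMul := by
  intro x y hxy
  by_contra hne
  set z : Fin m → ℝ := x - y with hz
  have hz0 : z ≠ 0 := sub_ne_zero.2 hne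
  have h0 : z ᵥ* (Matrix.fromCols (ggC B c) (ggD B c)) = 0 := by
    rw [hz, Matrix.sub_vecMul]
    exact sub_eq_zero.2 hxy
  have hC : ∀ k, ∑ i, z i * ggC B c i k = 0 := fun k => by
    have := congrFun h0 (Sum.inl k)
    simpa [Matrix.vecMul, dotProduct] using this
  have hD : ∀ k, ∑ i, z i * ggD B c i k = 0 := fun k => by
    have := congrFun h0 (Sum.inr k)
    simpa [Matrix.vecMul, dotProduct] using this
  -- the last index with `z k ≠ 0`
  obtain ⟨k0, hk0⟩ := Function.ne_iff.1 hz0
  have hne' : (Finset.univ.filter fun k => z k ≠ 0).Nonempty := ⟨k0, by simpa using hk0⟩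
  set k := (Finset.univ.filter fun k => z k ≠ 0).max' hne' with hk
  have hkz : z k ≠ 0 := by
    have := Finset.max'_mem _ hne'
    rw [← hk] at this
    simpa using this
  have hlast : ∀ i, k < i → z i = 0 := by
    intro i hi
    by_contra h
    have := Finset.le_max' (Finset.univ.filter fun k => z k ≠ 0) i (by simpa using h)
    rw [← hk] at this
    exact absurd hi (not_lt.2 this)
  have h1 := hD k
  rw [Finset.sum_eq_single k (fun i _ hik => by simp [ggD, Matrix.diagonal_apply, hik])
    (fun h => absurd (Finset.mem_univ k) h)] at h1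
  have hd0 : ggD B c k k = 0 := by
    rcases mul_eq_zero.1 h1 with h | h
    · exact absurd h hkz
    · exact h
  have hck : (k : ℕ) < c ∧ B k k ≠ 0 := by
    by_contra h
    simp [ggD, h] at hd0
  have h2 := hC k
  rw [Finset.sum_eq_single k] at h2
  · rcases mul_eq_zero.1 h2 with h | h
    · exact hkz h
    · simp only [ggC, Matrix.of_apply, hck.1, if_true] at h
      exact hck.2 (by exact_mod_cast h)
  · intro i _ hik
    rcases lt_or_gt_of_ne hik with hlt | hgt
    · simp [ggC, hB.tri i k hlt]
    · simp [hlast i hgt]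
  · exact fun h => absurd (Finset.mem_univ k) h

theorem ggp : GgpStmt := by
  intro m B hB c _
  have hpos : (((LB (GG B) c).map (Int.cast : ℤ → ℝ))).PosDef := by
    have h := Matrix.PosDef.mul_conjTranspose_self _ (gg_inj hB c)
    rw [Matrix.conjTranspose_fromCols_eq_fromRows_conjTranspose, Matrix.fromCols_mul_fromRows] at h
    rw [gg_entry]
    exact h
  have hdet := hpos.det_pos
  have hcast : (((LB (GG B) c).map (Int.cast : ℤ → ℝ))).det = (((LB (GG B) c).det : ℤ) : ℝ) := by
    have := (Int.castRingHom ℝ).map_det (LB (GG B) c)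
    rw [RingHom.mapMatrix_apply] at this
    exact this.symm
  rw [hcast] at hdet
  have : 0 < (LB (GG B) c).det := by exact_mod_cast hdet
  omega

end Pool.Agent.LAT.H55
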